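import Pool.Agent.H67.Gen2

namespace Pool.Agent.Results.MP_b62fd5_al.Generic

open H67.Gen

/-- `ax = b` and `ya = b` have exactly one solution -/
def IsQuasigroup {T : Type} (m : T → T → T) : Prop :=
  (∀ a b, ∃! x, m a x = b) ∧ ∀ a b, ∃! y, m y a = b

/-- the Latin square `{(x, y, xy)}` -/
def Cells {T : Type} (m : T → T → T) : Set (Fin 3 → T) := {v | v 2 = m (v 0) (v 1)}

def Isotopic {T S : Type} (m : T → T → T) (m' : S → S → S) : Prop :=
  ∃ α β γ : T ≃ S, ∀ x y, γ (m x y) = m' (α x) (β y)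

/-- apply a bijection to each coordinate, then permute the coordinates -/
def IsParatopism {T : Type} (f : (Fin 3 → T) → (Fin 3 → T)) : Prop :=
  ∃ (α : Fin 3 → Equiv.Perm T) (σ : Equiv.Perm (Fin 3)), ∀ v i, f v (σ i) = α i (v i)

def IsAutopar {T : Type} (m : T → T → T) (f : (Fin 3 → T) → (Fin 3 → T)) : Prop :=
  IsParatopism f ∧ f '' Cells m = Cells m

/-- the autoparatopism group is transitive on the cells and preserves no partition of the cells
other than the two trivial ones -/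
def PrimitiveAutopar {T : Type} (m : T → T → T) : Prop :=
  (∀ u ∈ Cells m, ∀ v ∈ Cells m, ∃ f, IsAutopar m f ∧ f u = v) ∧
  ∀ E : Setoid (Cells m),
    (∀ f, IsAutopar m f → ∀ u v u' v' : Cells m, u'.1 = f u.1 → v'.1 = f v.1 → E u v → E u' v') →
    E = ⊥ ∨ E = ⊤

/-- Zorn vector matrices: the split octonions -/
abbrev Zorn (F : Type) := F × (Fin 3 → F) × (Fin 3 → F) × F

def zmul {F : Type} [Field F] (x y : Zorn F) : Zorn F :=
  (x.1 * y.1 + x.2.1 ⬝ᵥ y.2.2.1,
   x.1 • y.2.1 + y.2.2.2 • x.2.1 - crossProduct x.2.2.1 y.2.2.1,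
   y.1 • x.2.2.1 + x.2.2.2 • y.2.2.1 + crossProduct x.2.1 y.2.1,
   x.2.2.2 * y.2.2.2 + x.2.2.1 ⬝ᵥ y.2.1)

def znorm {F : Type} [Field F] (x : Zorn F) : F := x.1 * x.2.2.2 - x.2.1 ⬝ᵥ x.2.2.1

/-- `(S, m')` is the quotient of the norm-one split octonions over a finite field by `±1` -/
def IsPaige {S : Type} (m' : S → S → S) : Prop :=
  ∃ (F : Type) (_ : Field F) (_ : Finite F) (p : Zorn F → S),
    (∀ s, ∃ x, znorm x = 1 ∧ p x = s) ∧
    (∀ x y, znorm x = 1 → znorm y = 1 → (p x = p y ↔ x = y ∨ x = -y)) ∧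
    ∀ x y, znorm x = 1 → znorm y = 1 → p (zmul x y) = m' (p x) (p y)

/-- a loop with the left Bol identity (groups and Moufang loops are examples) -/
def IsBolLoop {S : Type} (m' : S → S → S) : Prop :=
  IsQuasigroup m' ∧ (∃ e, ∀ x, m' e x = x ∧ m' x e = x) ∧
  ∀ x y z, m' x (m' y (m' x z)) = m' (m' x (m' y x)) z

theorem hex {S : Type} {m : S → S → S} (h : IsBolLoop m) {a0 a1 a2 b0 b1 b2 : S}
    (h1 : m a0 b1 = m a1 b0) (h2 : m a0 b2 = m a1 b1) (h3 : m a2 b0 = m a1 b1) :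
    m a1 b2 = m a2 b1 := by
  obtain ⟨⟨q1, q2⟩, ⟨e, he⟩, bol⟩ := h
  have lc : ∀ {a x y}, m a x = m a y → x = y := fun {a x y} h => (q1 a (m a y)).unique h rfl
  have rc : ∀ {a x y}, m x a = m y a → x = y := fun {a x y} h => (q2 a (m y a)).unique h rfl
  obtain ⟨c, hc, -⟩ := q2 a0 e
  have inv : ∀ z, m c (m a0 z) = z := fun z => lc (a := a0) (by rw [bol, hc, (he a0).2])
  have e1 : m c (m a1 b0) = b1 := by rw [← h1, inv]
  have e2 : m c (m a1 b1) = b2 := by rw [← h2, inv]
  have e3 : a2 = m a1 (m c a1) := rc (a := b0) (by rw [← bol, e1, h3])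
  rw [e3, ← bol, e2]

section
variable {C : Tri} {g : Slot → X ≃ X} (L : Lim C g)

noncomputable def mul (L : Lim C g) (x y : N) : N := (L.tot (0, x) (1, y) rfl).choose.2

theorem mul_iff {x y z} : mul L x y = z ↔ C (0, x) (1, y) (2, z) := by
  have h := (L.tot (0, x) (1, y) rfl).choose_spec
  have e : (L.tot (0, x) (1, y) rfl).choose = (2, mul L x y) :=
    Prod.ext (L.so (L.cyc h)) rfl
  rw [e] at h
  exact ⟨fun e => e ▸ h, fun h' => congrArg Prod.snd (L.uniq h h')⟩

theorem quasi : IsQuasigroup (mul L) := by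
  constructor
  · intro a b
    obtain ⟨⟨i, x⟩, h⟩ := L.tot (2, b) (0, a) rfl
    obtain rfl : i = 1 := L.so (L.cyc h)
    exact ⟨x, (mul_iff L).2 (L.cyc h), fun y hy =>
      congrArg Prod.snd (L.uniq (L.cyc (L.cyc ((mul_iff L).1 hy))) h)⟩
  · intro a b
    obtain ⟨⟨i, x⟩, h⟩ := L.tot (1, a) (2, b) rfl
    obtain rfl : i = 0 := L.so (L.cyc h)
    exact ⟨x, (mul_iff L).2 (L.cyc (L.cyc h)), fun y hy =>
      congrArg Prod.snd (L.uniq (L.cyc ((mul_iff L).1 hy)) h)⟩

theorem cell_iff {v} : v ∈ Cells (mul L) ↔ Cl C v := by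
  constructor
  · intro h i
    have h := (mul_iff L).1 (Eq.symm h)
    fin_cases i
    · exact h
    · exact L.cyc h
    · exact L.cyc (L.cyc h)
  · intro h
    exact ((mul_iff L).2 (h 0)).symm

def act (g : Slot → X ≃ X) (s : Slot) (v : Fin 3 → N) : Fin 3 → N :=
  fun j => (g s (j - s.2, v (j - s.2))).2

include L in
theorem act_spec (s : Slot) (v : Fin 3 → N) (i : Fin 3) :
    g s (i, v i) = (i + s.2, act g s v (i + s.2)) := by
  refine Prod.ext (L.sh s _) ?_
  simp only [act, add_sub_cancel_right]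

include L in
theorem act_eq {s : Slot} {v w : Fin 3 → N} (h : ∀ i, g s (i, v i) = (i + s.2, w (i + s.2))) :
    w = act g s v := by
  funext j
  have := (h (j - s.2)).symm.trans (act_spec L s v (j - s.2))
  rw [sub_add_cancel] at this
  exact congrArg Prod.snd this

include L in
theorem act_cl (s : Slot) (v : Fin 3 → N) : Cl C (act g s v) ↔ Cl C v := by
  constructor
  · intro h i
    refine L.bw s ?_
    rw [act_spec L, act_spec L, act_spec L, add_right_comm i 1, add_right_comm i 2]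
    exact h _
  · intro h j
    have := L.fw s (h (j - s.2))
    rw [act_spec L, act_spec L, act_spec L, add_right_comm _ 1, add_right_comm _ 2,
      sub_add_cancel] at this
    exact this

theorem act_auto (s : Slot) : IsAutopar (mul L) (act g s) := by
  have bij : ∀ i, Function.Bijective (fun x : N => (g s (i, x)).2) := fun i => by
    constructor
    · intro x y e
      have : g s (i, x) = g s (i, y) := Prod.ext (by rw [L.sh, L.sh]) e
      exact congrArg Prod.snd ((g s).injective this)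
    · intro y
      obtain ⟨⟨j, x⟩, h⟩ := (g s).surjective (i + s.2, y)
      have := L.sh s (j, x)
      rw [h] at this
      obtain rfl : i = j := add_right_cancel this
      exact ⟨x, congrArg Prod.snd h⟩
  refine ⟨⟨fun i => Equiv.ofBijective _ (bij i), Equiv.addRight s.2, fun v i => ?_⟩, ?_⟩
  · simp [act]
  · ext w
    constructor
    · rintro ⟨v, hv, rfl⟩
      exact (cell_iff L).2 ((act_cl L s v).2 ((cell_iff L).1 hv))
    · intro hw
      choose v hv using fun i => (bij i).2 (w (i + s.2))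
      have e : w = act g s v := act_eq L fun i => Prod.ext (L.sh s _) (hv i)
      exact ⟨v, (cell_iff L).2 ((act_cl L s v).1 (e ▸ (cell_iff L).1 hw)), e.symm⟩

theorem exists_disj (u v : Fin 3 → N) :
    ∃ w ∈ Cells (mul L), (∀ i, u i ≠ w i) ∧ ∀ i, v i ≠ w i := by
  classical
  obtain ⟨x, hx⟩ := Infinite.exists_notMem_finset ({u 0, v 0} : Finset N)
  obtain ⟨y1, h1, -⟩ := (quasi L).1 x (u 2)
  obtain ⟨y2, h2, -⟩ := (quasi L).1 x (v 2)
  obtain ⟨y, hy⟩ := Infinite.exists_notMem_finset ({u 1, v 1, y1, y2} : Finset N)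
  simp only [Finset.mem_insert, Finset.mem_singleton, not_or] at hx hy
  refine ⟨![x, y, mul L x y], rfl, fun i => ?_, fun i => ?_⟩ <;> fin_cases i
  · exact Ne.symm hx.1
  · exact Ne.symm hy.1
  · exact fun e => hy.2.2.1 (((quasi L).1 x (u 2)).unique (Eq.symm e) h1)
  · exact Ne.symm hx.2
  · exact Ne.symm hy.2.1
  · exact fun e => hy.2.2.2 (((quasi L).1 x (v 2)).unique (Eq.symm e) h2)

theorem prim : PrimitiveAutopar (mul L) := by
  have z : ∀ {s : ℕ} {v w : Fin 3 → N}, (∀ i, g (s, 0) (i, v i) = (i, w i)) → w = act g (s, 0) v :=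
    fun h => act_eq L fun i => by simpa using h i
  constructor
  · intro u hu v hv
    obtain ⟨c, hc, h1, h2⟩ := exists_disj L u v
    obtain ⟨s, t, w, -, -, a3, -⟩ :=
      L.tb c u v ((cell_iff L).1 hc) ((cell_iff L).1 hu) ((cell_iff L).1 hv) h1 h2
    exact ⟨_, act_auto L (t, 0), (z a3).symm⟩
  · intro E hE
    have key : ∀ c e d : Cells (mul L), E c e → (∀ i, e.1 i ≠ c.1 i) → (∀ i, d.1 i ≠ c.1 i) →
        E c d := by
      intro c e d h h1 h2
      obtain ⟨s, t, w, a1, a2, a3, a4⟩ :=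
        L.tb c e d ((cell_iff L).1 c.2) ((cell_iff L).1 e.2) ((cell_iff L).1 d.2) h1 h2
      have hw : w ∈ Cells (mul L) :=
        (cell_iff L).2 (z a2 ▸ (act_cl L _ _).2 ((cell_iff L).1 e.2))
      have k1 : E c ⟨w, hw⟩ := hE _ (act_auto L (s, 0)) c e c ⟨w, hw⟩ (z a1) (z a2) h
      have k2 : E e ⟨w, hw⟩ := E.trans (E.symm h) k1
      have k3 : E d ⟨w, hw⟩ := hE _ (act_auto L (t, 0)) e ⟨w, hw⟩ d ⟨w, hw⟩ (z a3) (z a4) k2
      exact E.trans k1 (E.symm k3)
    by_cases hb : ∀ u v, E u v → u = v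
    · exact Or.inl (le_bot_iff.1 fun u v h => hb u v h)
    · push Not at hb
      obtain ⟨u, v, huv, hne⟩ := hb
      obtain ⟨s, w, a1, a2, a3⟩ :=
        L.ta u v ((cell_iff L).1 u.2) ((cell_iff L).1 v.2) fun e => hne (Subtype.ext e)
      have e1 := act_eq L (s := (s, 1)) a1
      have e2 := act_eq L (s := (s, 1)) a2
      have hw : w ∈ Cells (mul L) :=
        (cell_iff L).2 (e2 ▸ (act_cl L _ _).2 ((cell_iff L).1 v.2))
      have k1 : E v ⟨w, hw⟩ :=
        E.trans (E.symm huv) (hE _ (act_auto L (s, 1)) u v u ⟨w, hw⟩ e1 e2 huv)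
      have all : ∀ d, E v d := fun d => by
        obtain ⟨c, hc, h1, h2⟩ := exists_disj L v.1 d.1
        have k2 : E v ⟨c, hc⟩ := key v ⟨w, hw⟩ ⟨c, hc⟩ k1 a3 fun i => (h1 i).symm
        exact E.trans k2 (key ⟨c, hc⟩ v d (E.symm k2) h1 h2)
      exact Or.inr (top_le_iff.1 fun a b _ => E.trans (E.symm (all a)) (all b))

end

theorem result : ∃ (T : Type) (m : T → T → T),
    IsQuasigroup m ∧ PrimitiveAutopar m ∧ Countable T ∧ Infinite T ∧
    (∀ (G : Type) [Group G], ¬ Isotopic m (fun x y : G => x * y)) ∧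
    (∀ (S : Type) (m' : S → S → S), IsPaige m' → ¬ Isotopic m m') ∧
    (∀ (S : Type) (m' : S → S → S), IsBolLoop m' → ¬ Isotopic m m') := by
  obtain ⟨C, g, L, h0⟩ := exists_lim p0
  have bol : ∀ (S : Type) (m' : S → S → S), IsBolLoop m' → ¬ Isotopic (mul L) m' := by
    rintro S m' h ⟨α, β, γ, e⟩
    have c : ∀ t ∈ B, m' (α (0, t.1)) (β (0, t.2.1)) = γ (0, t.2.2) := fun t ht => by
      rw [← e, (mul_iff L).2 (h0 _ _ _ (Or.inl ⟨t, ht, rfl, rfl, rfl⟩))]
    have := hex h ((c (0, 1, 1) (by decide)).trans (c (1, 0, 1) (by decide)).symm)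
      ((c (0, 2, 2) (by decide)).trans (c (1, 1, 2) (by decide)).symm)
      ((c (2, 0, 2) (by decide)).trans (c (1, 1, 2) (by decide)).symm)
    rw [c (1, 2, 3) (by decide), c (2, 1, 4) (by decide)] at this
    exact absurd (γ.injective this) (by decide)
  refine ⟨N, mul L, quasi L, prim L, inferInstance, inferInstance, fun G _ => bol G _ ?_, ?_, bol⟩
  · refine ⟨⟨fun a b => ⟨a⁻¹ * b, by simp, fun y h => by simp [← h]⟩,
      fun a b => ⟨b * a⁻¹, by simp, fun y h => by simp [← h]⟩⟩, ⟨1, by simp⟩, fun x y z => ?_⟩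
    simp only [mul_assoc]
  · rintro S m' ⟨F, _, _, p, h, -⟩ ⟨α, -⟩
    have : Finite S := Finite.of_surjective p fun s => (h s).imp fun _ h => h.2
    exact (Finite.of_equiv S α.symm).not_infinite inferInstance

end Pool.Agent.Results.MP_b62fd5_al.Generic
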